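import Mathlib
import Pool.Prelude.Def_F_c31e40fa
import Pool.Agent.R240.Res4

set_option autoImplicit false

open Filter Topology Set Metric MeasureTheory Complex N62a1eb23

namespace Pool.Agent.Results.MP_b511e9_an.CloseCentres

/-- The map `z ↦ z ^ 2 + c`. -/
def f (c : ℂ) : ℂ → ℂ := fun z => z ^ 2 + c

/-- The point `f_c^n (0)` of the critical orbit. If `P n a = 0` and `n ≥ 1`, then `a` is a
superattracting parameter of period dividing `n`, the centre of a hyperbolic component. -/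
def P (n : ℕ) (c : ℂ) : ℂ := (f c)^[n] 0

/-- The perturbation `(id + t Φ) ∘ f_c` of `f_c`. For `Φ = 1` it is `f_(c + t)`. -/
def g (c : ℂ) (Φ : ℂ → ℂ) (t : ℂ) : ℂ → ℂ := fun z => f c z + t * Φ (f c z)

/-- `h` is proper of degree at most `2` from the bounded open set `U` onto a set which contains the
closure of `U`. Polynomial-like maps of degree `2` have this property. -/
def PolynomialLike (h : ℂ → ℂ) (U : Set ℂ) : Prop :=
  IsOpen U ∧ Bornology.IsBounded U ∧ closure U ⊆ h '' U ∧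
    (∀ K ⊆ h '' U, IsCompact K → IsCompact {z | z ∈ U ∧ h z ∈ K}) ∧
    ∀ w ∈ h '' U, {z | z ∈ U ∧ h z = w}.encard ≤ 2

/-- `z ↦ z ^ 2 + c` is renormalizable of period `p` (for `p = 1` this is so for all `c` in the
Mandelbrot set). -/
def Renormalizable (c : ℂ) (p : ℕ) : Prop :=
  ∃ U : Set ℂ, PolynomialLike ((f c)^[p]) U ∧ (0 : ℂ) ∈ U ∧
    (∀ n : ℕ, 1 ≤ n → (f c)^[n * p] 0 ∈ U) ∧ ∀ z ∈ U, deriv ((f c)^[p]) z = 0 → z = 0

/-- For all large `n`, all superattracting parameters of period dividing `n` are at distance more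
than `exp (- X n)` from `c`, and every holomorphic perturbation of the map moves the `n`-th point of
the critical orbit with a speed which is at most `exp (X n)` times its size (up to a logarithm and a
constant). -/
def Far (K X : ℝ) (c : ℂ) : Prop :=
  ∀ᶠ n : ℕ in atTop, (∀ a : ℂ, P n a = 0 → Real.exp (-(X * n)) < dist a c) ∧
    ∀ (Φ : ℂ → ℂ) (M : ℝ), DifferentiableOn ℂ Φ (ball 0 4) →
      (∀ x ∈ ball (0 : ℂ) 4, ‖Φ x‖ ≤ M) →
      DifferentiableAt ℂ (fun t : ℂ => (g c Φ t)^[n] 0) 0 ∧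
      ‖deriv (fun t : ℂ => (g c Φ t)^[n] 0) 0‖ ≤
        K * M * Real.exp (X * n) * (‖P n c‖ * (1 + |Real.log ‖P n c‖|))

theorem far {c : ℂ} (hc : c ∈ multibrotSet 2) {X : ℝ} (h : Pool.Agent.R240.Res.Far 2 X c) :
    Far Pool.Agent.R240.Res.KR X c := by
  unfold Far
  filter_upwards [h] with n hn
  refine ⟨fun a ha => ?_, fun Φ M hΦ hM => ?_⟩
  · rw [dist_eq_norm]
    exact hn.1 a ha
  · have h2 : HasDerivAt (fun t : ℂ => (g c Φ t)^[n] 0) (Pool.Agent.R240.Univ.vel 2 c Φ n) 0 :=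
      Pool.Agent.R240.Univ.vel_deriv (le_refl 2) hc hΦ n
    refine ⟨h2.differentiableAt, ?_⟩
    rw [h2.deriv]
    exact hn.2 Φ M hΦ hM

theorem near {c : ℂ} (hc : c ∈ multibrotSet 2) {X : ℝ} (hX : 0 < X)
    (h : ¬ Far Pool.Agent.R240.Res.KR X c) : Pool.Agent.R240.Res.Near 2 X c :=
  Pool.Agent.R240.Res.near_of_not_far (le_refl 2) hc hX.le fun h1 => h (far hc h1)

/-- **Infinitely renormalizable parameters are not exponentially close to superattracting ones**,
outside a set of Hausdorff dimension zero; for each period `p` of renormalization the dimension is at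
most `log 2 / (p X)`. -/
theorem result :
    ∃ K : ℝ, 0 < K ∧
      (∀ (p : ℕ) (X : ℝ), 1 ≤ p → 0 < X →
        dimH {c : ℂ | Renormalizable c p ∧ ¬ Far K X c} ≤
          ENNReal.ofReal (Real.log 2 / (p * X))) ∧
      dimH {c : ℂ | {p : ℕ | Renormalizable c p}.Infinite ∧
        ∃ X : ℝ, 0 < X ∧ ¬ Far K X c} = 0 := by
  refine ⟨Pool.Agent.R240.Res.KR, Pool.Agent.R240.Res.KR_pos, ?_, ?_⟩
  · intro p X hp hX
    refine (dimH_mono ?_).trans (Pool.Agent.R240.Res.dim_near' (d := 2) le_rfl hp hX)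
    rintro c ⟨h1, h2⟩
    have h3 : Pool.Agent.R240.Res.RenC 2 c p := h1
    exact ⟨h3, near (Pool.Agent.Y736.RN.ren_mem hp h3.ren) hX h2⟩
  · apply le_antisymm _ bot_le
    refine (dimH_mono ?_).trans (Pool.Agent.R240.Res.dim_near_inf' (d := 2) le_rfl).le
    rintro c ⟨h1, X, hX, h2⟩
    have h3 : {p : ℕ | Pool.Agent.R240.Res.RenC 2 c p}.Infinite := h1
    obtain ⟨p, hp, hp0⟩ := h3.exists_gt 0
    have hp' : Pool.Agent.R240.Res.RenC 2 c p := hp
    exact ⟨h3, X, hX, near (Pool.Agent.Y736.RN.ren_mem hp0 hp'.ren) hX h2⟩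

end Pool.Agent.Results.MP_b511e9_an.CloseCentres
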