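import Mathlib
import Pool.Prelude.Def_F_c31e40fa
import Pool.Agent.R449.MB.Few

set_option autoImplicit false

/-!
# Superattracting parameters are sparse near infinitely renormalizable ones

Outside a set of Hausdorff dimension zero every infinitely renormalizable parameter `c` has the
following property: for every `κ`, all small discs `B(c, r)` contain at most `2 ^ n * r ^ κ`
superattracting parameters of period dividing `n`, for all `n` at the same time; equivalently the
averages over these parameters `a` of all negative powers of `|a - c|` are bounded uniformly in `n`.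
For each period `p` of renormalization the exceptional set has dimension at most `κ / p`.
-/

open Filter Topology Set Metric MeasureTheory Complex N62a1eb23

namespace Pool.Agent.Results.MP_b511e9_an.SparseCentres

/-- The map `z ↦ z ^ 2 + c`. -/
def f (c : ℂ) : ℂ → ℂ := fun z => z ^ 2 + c

/-- The superattracting parameters of period dividing `n` (the centres of the hyperbolic components
of these periods). -/
def centres (n : ℕ) : Set ℂ := {a | (f a)^[n] 0 = 0}

/-- `h` is proper of degree at most `2` from the bounded open set `U` onto a set which contains the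
closure of `U`. Polynomial-like maps of degree `2` have this property. -/
def PolynomialLike (h : ℂ → ℂ) (U : Set ℂ) : Prop :=
  IsOpen U ∧ Bornology.IsBounded U ∧ closure U ⊆ h '' U ∧
    (∀ K ⊆ h '' U, IsCompact K → IsCompact {z | z ∈ U ∧ h z ∈ K}) ∧
    ∀ w ∈ h '' U, {z | z ∈ U ∧ h z = w}.encard ≤ 2

/-- `z ↦ z ^ 2 + c` is renormalizable of period `p` (for `p = 1` this is so for all `c` in the
Mandelbrot set). -/
def Renormalizable (c : ℂ) (p : ℕ) : Prop :=
  ∃ U : Set ℂ, PolynomialLike ((f c)^[p]) U ∧ (0 : ℂ) ∈ U ∧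
    (∀ n : ℕ, 1 ≤ n → (f c)^[n * p] 0 ∈ U) ∧ ∀ z ∈ U, deriv ((f c)^[p]) z = 0 → z = 0

/-- `z ↦ z ^ 2 + c` is renormalizable of period `p` with bounds `C`: `U` contains the discs of some
radius `r` about the points `f^[n p] 0`, and its image has diameter at most `C r`. -/
def Bounds (C : ℝ) (c : ℂ) (p : ℕ) : Prop :=
  ∃ (U : Set ℂ) (r : ℝ), PolynomialLike ((f c)^[p]) U ∧ 0 < r ∧
    (∀ n : ℕ, ball ((f c)^[n * p] 0) r ⊆ U) ∧
    ∀ z ∈ U, ∀ z' ∈ U, ‖(f c)^[p] z - (f c)^[p] z'‖ ≤ C * r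

/-- All small discs of radius `r` about `c` contain at most `2 ^ n * r ^ κ` superattracting
parameters of period dividing `n`, for all `n ≥ 1` at the same time. -/
def Sparse (κ : ℝ) (c : ℂ) : Prop :=
  ∀ᶠ r : ℝ in 𝓝[>] 0, ∀ n : ℕ, 1 ≤ n → ((centres n ∩ ball c r).ncard : ℝ) ≤ 2 ^ n * r ^ κ

/-- `c` is not superattracting, and the sum of `|a - c| ^ (-s)` over the superattracting parameters
`a` of period dividing `n` is at most a constant times `2 ^ n`. -/
def BoundedMoments (s : ℝ) (c : ℂ) : Prop :=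
  (∀ n : ℕ, 1 ≤ n → c ∉ centres n) ∧
    ∃ C : ℝ, ∀ n : ℕ, 1 ≤ n → ∑ᶠ a ∈ centres n, dist a c ^ (-s) ≤ C * 2 ^ n

theorem centres_eq (N : ℕ) :
    centres (N + 1) = ((Pool.Agent.R240.LL.ZZ 2 N : Finset ℂ) : Set ℂ) := by
  ext a
  rw [Finset.mem_coe, Pool.Agent.R240.LL.mem_ZZ (d := 2) le_rfl]
  rfl

theorem inter_eq (n : ℕ) (c : ℂ) (r : ℝ) :
    centres n ∩ ball c r = Pool.Agent.R240.Sparse.cen 2 n c r := by
  ext a
  exact and_comm

theorem sparse_iff (κ : ℝ) (c : ℂ) : Sparse κ c ↔ Pool.Agent.R449.MB.FewAt 2 κ c := by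
  unfold Sparse Pool.Agent.R449.MB.FewAt
  simp only [inter_eq, Nat.cast_ofNat]

theorem moments_iff (s : ℝ) (c : ℂ) : BoundedMoments s c ↔ Pool.Agent.R449.MB.MomAt 2 s c := by
  unfold BoundedMoments Pool.Agent.R449.MB.MomAt
  refine and_congr Iff.rfl ?_
  constructor
  · rintro ⟨C, hC⟩
    refine ⟨C, fun N => ?_⟩
    have h1 := hC (N + 1) (by omega)
    rw [centres_eq, finsum_mem_coe_finset] at h1
    simpa only [dist_eq_norm, Nat.cast_ofNat] using h1
  · rintro ⟨C, hC⟩
    refine ⟨C, fun n hn => ?_⟩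
    obtain ⟨N, rfl⟩ : ∃ N, n = N + 1 := ⟨n - 1, by omega⟩
    have h1 := hC N
    rw [centres_eq, finsum_mem_coe_finset]
    simpa only [dist_eq_norm, Nat.cast_ofNat] using h1

/-- **Superattracting parameters are sparse near infinitely renormalizable ones.** -/
theorem result :
    (∀ n : ℕ, 1 ≤ n → (centres n).Finite) ∧
    (∀ (p : ℕ) (κ : ℝ), 1 ≤ p → 0 < κ →
      dimH {c : ℂ | Renormalizable c p ∧ ¬ Sparse κ c} ≤ ENNReal.ofReal (κ / p) ∧
      dimH {c : ℂ | Renormalizable c p ∧ ¬ BoundedMoments κ c} ≤ ENNReal.ofReal (κ / p)) ∧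
    dimH {c : ℂ | {p : ℕ | Renormalizable c p}.Infinite ∧
      ¬ ∀ κ : ℝ, 0 < κ → Sparse κ c ∧ BoundedMoments κ c} = 0 ∧
    ∃ K : ℝ, 0 < K ∧ ∀ c : ℂ,
      (∀ ε : ℝ, 0 < ε → {p : ℕ | Bounds (Real.exp (ε * p)) c p}.Infinite) →
      ∀ κ : ℝ, 0 < κ → ∀ᶠ r : ℝ in 𝓝[>] 0, ∀ n : ℕ, 1 ≤ n →
        ((centres n ∩ ball c r).ncard : ℝ) ≤ 2 ^ n * r ^ κ + K * n := by
  have hK := Pool.Agent.R240.LL.KL_pos
  have hl : 0 < Real.log 2 := Real.log_pos (by norm_num)
  refine ⟨?_, ?_, ?_, Pool.Agent.R240.LL.KL * Real.log 2, by positivity, ?_⟩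
  · intro n hn
    obtain ⟨N, rfl⟩ : ∃ N, n = N + 1 := ⟨n - 1, by omega⟩
    rw [centres_eq]
    exact (Pool.Agent.R240.LL.ZZ 2 N).finite_toSet
  · intro p κ hp hκ
    simp only [sparse_iff, moments_iff]
    exact ⟨Pool.Agent.R449.MB.dim_few (d := 2) le_rfl hp hκ,
      Pool.Agent.R449.MB.dim_mom (d := 2) le_rfl hp hκ⟩
  · apply le_antisymm _ bot_le
    refine (dimH_mono ?_).trans (Pool.Agent.R449.MB.dim_inf_few (d := 2) le_rfl).le
    rintro c ⟨h1, h2⟩
    push Not at h2
    obtain ⟨κ, hκ, h3⟩ := h2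
    refine ⟨h1, κ, hκ, ?_⟩
    rw [← sparse_iff, ← moments_iff]
    by_cases h4 : Sparse κ c
    · exact Or.inr (h3 h4)
    · exact Or.inl h4
  · intro c h κ hκ
    have hc : c ∈ multibrotSet 2 := by
      obtain ⟨p, ⟨U, r, hU, hr, hball, hdiam⟩, hp0⟩ := (h 1 one_pos).exists_gt 0
      refine Pool.Agent.Y736.RN.ren_mem (d := 2) hp0 ⟨U, hU, ?_, fun n _ => ?_⟩
      · have h1 := hball 0 (mem_ball_self hr)
        simpa using h1
      · exact hball n (mem_ball_self hr)
    have h1 := Pool.Agent.R449.MB.sparse_weak (d := 2) le_rfl hc (by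
      intro ε hε
      refine (h ε hε).mono ?_
      rintro q ⟨U, r, _, hr, hball, hdiam⟩
      exact ⟨U, r, hr, hball, hdiam⟩) hκ
    filter_upwards [h1, self_mem_nhdsWithin] with r h2 hr0 n hn
    have hr0' : (0:ℝ) < r := hr0
    rw [inter_eq]
    refine (h2 n hn).trans ?_
    push_cast
    have h3 : (2:ℝ) ^ (n - 1) ≤ 2 ^ n := pow_le_pow_right₀ (by norm_num) (by omega)
    have h4 : Pool.Agent.R240.LL.KL * n * Real.log 2 = Pool.Agent.R240.LL.KL * Real.log 2 * n := by
      ring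
    rw [h4]
    gcongr

end Pool.Agent.Results.MP_b511e9_an.SparseCentres
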